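import Mathlib
import Pool.Agent.W543.GE.Stm

/-!
Project GE (MP_54c2ef_al), part SURJ: surjectivity on matrices, from the injectivity of the
values of the Jacobian matrix, by the theorem of Ax and Grothendieck.
-/

set_option autoImplicit false

open scoped TensorProduct Kronecker Polynomial

universe u v

namespace Pool.Agent.W369.GE

open Pool.Agent.W543.GE

section inj

variable {K : Type u} [Field K] {n : ℕ} {F : Type u} [Field F] [Algebra K F] {N : ℕ}

/-- vectorisation -/
def vc (H : Matrix (Fin N) (Fin N) F) : Fin N × Fin N → F := fun p => H p.1 p.2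

theorem kron_vc (P Q H : Matrix (Fin N) (Fin N) F) :
    (P ⊗ₖ Q).mulVec (vc H) = vc (P * H * Q.transpose) := by
  funext p
  obtain ⟨i, j⟩ := p
  simp only [Matrix.mulVec, dotProduct, vc, Matrix.kroneckerMap_apply, Matrix.mul_apply,
    Matrix.transpose_apply, Fintype.sum_prod_type, Finset.sum_mul]
  rw [Finset.sum_comm]
  refine Finset.sum_congr rfl fun l _ => Finset.sum_congr rfl fun k _ => ?_
  ring

theorem ev_star (Y : Fin n → Matrix (Fin N) (Fin N) F) (b : A K n) :
    ev (fun i => (Y i).transpose) (star b) = (ev Y b).transpose := by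
  induction b using FreeAlgebra.induction with
  | grade0 r =>
    rw [FreeAlgebra.star_algebraMap, AlgHom.commutes, AlgHom.commutes,
      Algebra.algebraMap_eq_smul_one, Matrix.transpose_smul, Matrix.transpose_one]
  | grade1 j => rw [FreeAlgebra.star_ι, FreeAlgebra.lift_ι_apply, FreeAlgebra.lift_ι_apply]
  | mul a b ha hb => rw [star_mul, map_mul, map_mul, ha, hb, Matrix.transpose_mul]
  | add a b ha hb => rw [star_add, map_add, map_add, ha, hb, Matrix.transpose_add]

theorem vc_add (P Q : Matrix (Fin N) (Fin N) F) : vc (P + Q) = vc P + vc Q := rfl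

theorem vc_zero : vc (0 : Matrix (Fin N) (Fin N) F) = 0 := rfl

theorem kap_lf (X Y : Fin n → Matrix (Fin N) (Fin N) F) (a : A K n) :
    kap X Y (lf a) = ev X a ⊗ₖ (1 : Matrix (Fin N) (Fin N) F) := by
  unfold lf
  rw [kap_tmul, map_one]

theorem kap_rt (X Y : Fin n → Matrix (Fin N) (Fin N) F) (a : A K n) :
    kap X Y (rt a) = (1 : Matrix (Fin N) (Fin N) F) ⊗ₖ ev Y (star a) := by
  unfold rt
  rw [kap_tmul, map_one]

/-- the difference formula -/
theorem diff (X Y : Fin n → Matrix (Fin N) (Fin N) F) (a : A K n) :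
    ∑ i, (kap X (fun i => (Y i).transpose) (dd a i)).mulVec (vc (X i - Y i)) =
      vc (ev X a - ev Y a) := by
  induction a using FreeAlgebra.induction with
  | grade0 r =>
    rw [dd_algebraMap, AlgHom.commutes, AlgHom.commutes, sub_self, vc_zero]
    simp
  | grade1 j =>
    rw [FreeAlgebra.lift_ι_apply, FreeAlgebra.lift_ι_apply]
    have h1 : dd (FreeAlgebra.ι K j : A K n) = (Pi.single j 1 : Fin n → A K n ⊗[K] A K n) :=
      dd_x j
    rw [h1, Finset.sum_eq_single j]
    · rw [Pi.single_eq_same, map_one, Matrix.one_mulVec]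
    · intro i _ hi
      rw [Pi.single_eq_of_ne hi, map_zero, Matrix.zero_mulVec]
    · intro h
      exact absurd (Finset.mem_univ j) h
  | mul a b ha hb =>
    have h1 : ∀ i, (kap X (fun i => (Y i).transpose) (dd (a * b) i)).mulVec (vc (X i - Y i)) =
        (ev X a ⊗ₖ (1 : Matrix (Fin N) (Fin N) F)).mulVec
          ((kap X (fun i => (Y i).transpose) (dd b i)).mulVec (vc (X i - Y i))) +
        ((1 : Matrix (Fin N) (Fin N) F) ⊗ₖ (ev Y b).transpose).mulVec
          ((kap X (fun i => (Y i).transpose) (dd a i)).mulVec (vc (X i - Y i))) := by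
      intro i
      rw [dd_mul, map_add, map_mul, map_mul, kap_lf, kap_rt, ev_star, Matrix.add_mulVec,
        ← Matrix.mulVec_mulVec, ← Matrix.mulVec_mulVec]
    rw [Finset.sum_congr rfl fun i _ => h1 i, Finset.sum_add_distrib, ← Matrix.mulVec_sum,
      ← Matrix.mulVec_sum, ha, hb, kron_vc, kron_vc, ← vc_add, map_mul, map_mul,
      Matrix.transpose_one, Matrix.transpose_transpose]
    congr 1
    rw [mul_one, one_mul, mul_sub, sub_mul]
    abel
  | add a b ha hb =>
    have h1 : ∀ i, (kap X (fun i => (Y i).transpose) (dd (a + b) i)).mulVec (vc (X i - Y i)) =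
        (kap X (fun i => (Y i).transpose) (dd a i)).mulVec (vc (X i - Y i)) +
        (kap X (fun i => (Y i).transpose) (dd b i)).mulVec (vc (X i - Y i)) := by
      intro i
      rw [map_add, Pi.add_apply, map_add, Matrix.add_mulVec]
    rw [Finset.sum_congr rfl fun i _ => h1 i, Finset.sum_add_distrib, ha, hb, ← vc_add, map_add,
      map_add]
    congr 1
    abel

theorem inj_of_ptInj (φ : A K n →ₐ[K] A K n) (h : PtInj K n (jac φ))
    (X Y : Fin n → Matrix (Fin N) (Fin N) F) (hXY : ∀ k, ev X (φ (x k)) = ev Y (φ (x k))) :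
    X = Y := by
  have h1 := h F N N X (fun i => (Y i).transpose) (fun i => vc (X i - Y i)) (by
    intro k
    have h2 := diff X Y (φ (x k))
    rw [hXY k, sub_self, vc_zero] at h2
    exact h2)
  funext i
  ext a b
  have h3 := congrFun (congrFun h1 i) (a, b)
  simp only [vc, Matrix.sub_apply, Pi.zero_apply] at h3
  exact sub_eq_zero.mp h3

end inj

section ax

variable {K : Type u} [Field K] {n : ℕ} {F : Type u} [Field F] [Algebra K F] {N : ℕ}

/-- generic matrices -/
noncomputable def gen (n N : ℕ) (F : Type u) [Field F] (j : Fin n) :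
    Matrix (Fin N) (Fin N) (MvPolynomial (Fin n × Fin N × Fin N) F) :=
  Matrix.of fun a b => MvPolynomial.X (j, a, b)

/-- the matrices with given entries -/
def mat (v : Fin n × Fin N × Fin N → F) (j : Fin n) : Matrix (Fin N) (Fin N) F :=
  Matrix.of fun a b => v (j, a, b)

theorem eval_ev (v : Fin n × Fin N × Fin N → F) (a : A K n) (p q : Fin N) :
    MvPolynomial.eval v ((ev (gen n N F) a) p q) = (ev (mat v) a) p q := by
  induction a using FreeAlgebra.induction generalizing p q with
  | grade0 r =>
    rw [AlgHom.commutes, AlgHom.commutes, Matrix.algebraMap_matrix_apply,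
      Matrix.algebraMap_matrix_apply]
    split_ifs
    · rw [MvPolynomial.algebraMap_apply, MvPolynomial.eval_C]
    · rw [map_zero]
  | grade1 j =>
    rw [FreeAlgebra.lift_ι_apply, FreeAlgebra.lift_ι_apply]
    simp [gen, mat]
  | mul a b ha hb =>
    rw [map_mul, map_mul, Matrix.mul_apply, Matrix.mul_apply, map_sum]
    refine Finset.sum_congr rfl fun r _ => ?_
    rw [map_mul, ha, hb]
  | add a b ha hb =>
    rw [map_add, map_add, Matrix.add_apply, Matrix.add_apply, map_add, ha, hb]

end ax

theorem t_SURJ : SURJ_stmt.{u} := by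
  intro K _ n φ h F _ _ _ N Y
  have hinj : Function.Injective (fun (v : Fin n × Fin N × Fin N → F) i =>
      MvPolynomial.eval v
        ((fun i : Fin n × Fin N × Fin N => (ev (gen n N F) (φ (x i.1))) i.2.1 i.2.2) i)) := by
    intro v v' hv
    have h1 : mat v = mat v' := by
      apply inj_of_ptInj φ h
      intro k
      ext a b
      have h2 := congrFun hv (k, a, b)
      simp only [eval_ev] at h2
      exact h2
    funext i
    obtain ⟨j, a, b⟩ := i
    exact congrFun (congrFun (congrFun h1 j) a) b
  obtain ⟨v, hv⟩ := ax_grothendieck_univ _ hinj (fun i => Y i.1 i.2.1 i.2.2)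
  refine ⟨mat v, fun k => ?_⟩
  ext a b
  have h2 := congrFun hv (k, a, b)
  simp only [eval_ev] at h2
  exact h2

end Pool.Agent.W369.GE
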